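import Pool.Agent.MWT.Stmts

set_option autoImplicit false

/-!
# Row CVD of squad MWT (MP_23468a_al): the other thin letters are covered by letters of X
-/

namespace Pool.Agent.MWT.H50

open Pool.Agent.Helper14_MV Pool.Agent.Helper2_MV Pool.Agent.MVD Pool.Agent.MWT

theorem nl_zero_not_mem {w : List ℕ} (h : nl w = 0) (a : ℕ) (ha : a % 3 = 1) : a ∉ w := by
  intro hm
  unfold nl at h
  have h1 := List.length_eq_zero_iff.1 h
  have h2 : a ∈ w.filter (fun a => decide (a % 3 = 1)) := by
    rw [List.mem_filter]
    exact ⟨hm, by simpa using ha⟩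
  rw [h1] at h2
  exact absurd h2 (List.not_mem_nil)

theorem two_occ {f : ℕ} {w : List ℕ} (h : w.count f = 2) :
    ∃ p U q : List ℕ, w = p ++ f :: (U ++ f :: q) := by
  have h1 : f ∈ w := by
    rw [← List.count_pos_iff, h]
    norm_num
  obtain ⟨p, w', e1, hp⟩ := List.eq_append_cons_of_mem h1
  have h2 : w'.count f = 1 := by
    have h3 := h
    rw [e1, List.count_append, List.count_cons_self, List.count_eq_zero_of_not_mem hp] at h3
    omega
  have h4 : f ∈ w' := by
    rw [← List.count_pos_iff, h2]
    norm_num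
  obtain ⟨U, q, e2, -⟩ := List.eq_append_cons_of_mem h4
  exact ⟨p, U, q, by rw [e1, e2]⟩

theorem cvd (h1 : CvcStmt) (_h2 : CtbStmt) : CvdStmt := by
  intro m R E B t φ α L1 X Y ω h e f hm htg hcv hEf hfe
  obtain ⟨ξ1, ξ2, ephi, n1, n2, eB, -, -, -, hX1, -, hXm⟩ :=
    h1 m R E B t φ α L1 X Y ω h e htg hcv
  have hte := htg.th e hcv.ee
  have htf := htg.th f hEf
  have hh : nl (φ h) = 0 := hcv.c0 h (by simp) hcv.h0
  -- a copy which is owned by `f`, not by `e`
  have hk : ∃ k < 7, own f k ∧ ¬ own e k := by
    rcases hte with rfl | rfl | rfl <;> rcases htf with rfl | rfl | rfl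
    · exact absurd rfl hfe
    · exact ⟨4, by norm_num, by decide, by decide⟩
    · exact ⟨4, by norm_num, by decide, by decide⟩
    · exact ⟨0, by norm_num, by decide, by decide⟩
    · exact absurd rfl hfe
    · exact ⟨5, by norm_num, by decide, by decide⟩
    · exact ⟨0, by norm_num, by decide, by decide⟩
    · exact ⟨1, by norm_num, by decide, by decide⟩
    · exact absurd rfl hfe
  have o3 : ∀ a : ℕ, a = 0 ∨ a = 3 ∨ a = 6 → own a 3 := by
    rintro a (rfl | rfl | rfl) <;> decide
  have P1 : f ∉ φ h := by
    intro hf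
    obtain ⟨ζ1, ζ2, ez⟩ := List.append_of_mem hf
    obtain ⟨k, hk7, hkf, hke⟩ := hk
    have hB : B 0 = (α ++ (L1.flatMap φ ++ ζ1)) ++ f :: ((ζ2 ++ (X.flatMap φ ++ ζ1)) ++
        f :: (ζ2 ++ (Y.flatMap φ ++ ω))) := by
      rw [hcv.b0]
      simp only [List.flatMap_append, List.flatMap_cons, ez, List.append_assoc, List.cons_append]
    have hkm : k % 7 = k := Nat.mod_eq_of_lt hk7
    have hmem := htg.ow f hEf _ _ _ hB k (by omega) (by rw [hkm]; exact hkf)
    have z1 : nl (ζ1 ++ f :: ζ2) = 0 := by rw [← ez]; exact hh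
    have nz := nl_zero_not_mem z1 (3 * k + 1) (by omega)
    have hmX : 3 * k + 1 ∈ X.flatMap φ := by
      rcases List.mem_append.1 hmem with h3 | h3
      · exact absurd (by simp [h3]) nz
      · rcases List.mem_append.1 h3 with h4 | h4
        · exact h4
        · exact absurd (by simp [h4]) nz
    have h5 := (hXm k (by omega)).1 hmX
    rw [hkm] at h5
    exact hke h5
  refine ⟨P1, ?_, ?_⟩
  · by_contra hfX
    have h10 : (3 * 3 + 1) ∈ X.flatMap φ :=
      (hXm 3 (by omega)).2 (by simpa using o3 e hte)
    have c10 : (B 0).count (3 * 3 + 1) = 1 := by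
      have := htg.li 3 (by omega) 0 htg.z
      simpa using this
    have hfxi : f ∉ ξ1 ∧ f ∉ ξ2 := by
      rw [ephi] at P1
      constructor
      · intro h3; exact P1 (by simp [h3])
      · intro h3; exact P1 (by simp [h3])
    generalize hP : α ++ (L1.flatMap φ ++ ξ1) = PP at eB
    generalize hQ : ξ2 ++ (Y.flatMap φ ++ ω) = QQ at eB
    generalize hW : ξ2 ++ (X.flatMap φ ++ ξ1) = W at eB
    have hfW : f ∉ W := by
      rw [← hW]
      simp only [List.mem_append, not_or]
      exact ⟨hfxi.2, hfX, hfxi.1⟩
    have h10W : (3 * 3 + 1) ∈ W := by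
      rw [← hW]
      simp only [List.mem_append]
      exact Or.inr (Or.inl h10)
    have hcnt : PP.count f + QQ.count f = 2 := by
      have h3 := htg.tw f hEf
      rw [eB] at h3
      rw [List.count_append, List.count_cons_of_ne (Ne.symm hfe), List.count_append,
        List.count_cons_of_ne (Ne.symm hfe), List.count_eq_zero_of_not_mem hfW] at h3
      omega
    have cW : 1 ≤ W.count (3 * 3 + 1) := List.count_pos_iff.2 h10W
    have ce : (e = 3 * 3 + 1) = False := by
      rcases hte with rfl | rfl | rfl <;> simp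
    have cf : (f = 3 * 3 + 1) = False := by
      rcases htf with rfl | rfl | rfl <;> simp
    have ctot : PP.count (3 * 3 + 1) + W.count (3 * 3 + 1) + QQ.count (3 * 3 + 1) = 1 := by
      rw [eB] at c10
      rw [List.count_append, List.count_cons_of_ne (fun h => by rw [ce] at h; exact h),
        List.count_append, List.count_cons_of_ne (fun h => by rw [ce] at h; exact h)] at c10
      omega
    by_cases hfP : f ∈ PP
    · by_cases hfQ : f ∈ QQ
      · obtain ⟨p, p', ep⟩ := List.append_of_mem hfP
        obtain ⟨q', q, eq⟩ := List.append_of_mem hfQ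
        refine htg.ns e f hcv.ee hEf (Ne.symm hfe) p p' W q' q ?_
        rw [eB, ep, eq]
        simp only [List.append_assoc, List.cons_append]
      · have c0 : QQ.count f = 0 := List.count_eq_zero_of_not_mem hfQ
        obtain ⟨p, U, q, ep⟩ := two_occ (f := f) (w := PP) (by omega)
        have hmem := htg.ow f hEf p U (q ++ e :: (W ++ e :: QQ)) (by
          rw [eB, ep]
          simp only [List.append_assoc, List.cons_append]) 3 (by omega)
          (by simpa using o3 f htf)
        have cU : 1 ≤ U.count (3 * 3 + 1) := List.count_pos_iff.2 hmem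
        have cP : 1 ≤ PP.count (3 * 3 + 1) := by
          rw [ep]
          simp only [List.count_append, List.count_cons]
          omega
        omega
    · have c0 : PP.count f = 0 := List.count_eq_zero_of_not_mem hfP
      obtain ⟨p, U, q, ep⟩ := two_occ (f := f) (w := QQ) (by omega)
      have hmem := htg.ow f hEf (PP ++ e :: (W ++ e :: p)) U q (by
        rw [eB, ep]
        simp only [List.append_assoc, List.cons_append]) 3 (by omega)
        (by simpa using o3 f htf)
      have cU : 1 ≤ U.count (3 * 3 + 1) := List.count_pos_iff.2 hmem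
      have cP : 1 ≤ QQ.count (3 * 3 + 1) := by
        rw [ep]
        simp only [List.count_append, List.count_cons]
        omega
      omega
  · intro s hs hfs
    have hsm : s ∈ L1 ++ h :: (X ++ h :: Y) := by simp [hs]
    have c2 := hcv.c2 s hsm
    by_contra h0
    have hs1 : s % 3 = 1 := by omega
    exact (hcv.c1 s hsm hs1).2 (hX1 s hs hs1) f hEf hfs

end Pool.Agent.MWT.H50
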